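import Pool.Agent.Lib.MP_c7af3c_ag.GEN.Groups
import Pool.Agent.Lib.MP_c7af3c_ag.GEN.H38.Sproj

/-!
# Module GPROJ of project GEN: points of projective space with values in an extension field
-/

set_option autoImplicit false

namespace Pool.Agent.Gen.H70

open AlgebraicGeometry CategoryTheory CategoryTheory.Limits MvPolynomial HomogeneousLocalization

section

variable (k : Type) [Field k] (n : ℕ) [GradedAlgebra (homogeneousSubmodule (Fin (n + 1)) k)]
  (j : Fin (n + 1)) (K' : Type) [Field K'] [Algebra k K']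

/-- ring homomorphisms with values in `K'` which are the inclusion on constants -/
theorem hom_fr (ψ : Away (H38.gr k n) (X j : MvPolynomial (Fin (n + 1)) k) →+* K')
    (hψ : ∀ a, ψ (H38.cst k n j a) = algebraMap k K' a)
    (F : MvPolynomial (Fin (n + 1)) k) (d : ℕ) (hF : F.IsHomogeneous d) :
    ψ (H38.fr k n j F d hF) = aeval (fun l => ψ (H38.frX k n j l)) F := by
  rw [← H38.theta_eq]
  unfold H38.theta
  rw [coe_eval₂Hom, eval₂_comp_left]
  have h1 : ψ.comp (H38.cst k n j) = algebraMap k K' := RingHom.ext hψ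
  rw [h1]
  rfl

theorem hom_ext (ψ ψ' : Away (H38.gr k n) (X j : MvPolynomial (Fin (n + 1)) k) →+* K')
    (hψ : ∀ a, ψ (H38.cst k n j a) = algebraMap k K' a)
    (hψ' : ∀ a, ψ' (H38.cst k n j a) = algebraMap k K' a)
    (h : ∀ l, ψ (H38.frX k n j l) = ψ' (H38.frX k n j l)) : ψ = ψ' := by
  apply RingHom.ext
  intro z
  obtain ⟨d, F, hF, rfl⟩ := Away.mk_surjective (H38.gr k n) (H38.X_mem k n j) z
  have hF' : F.IsHomogeneous d := by
    rw [smul_eq_mul, mul_one, mem_homogeneousSubmodule] at hF
    exact hF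
  have h1 := hom_fr k n j K' ψ hψ F d hF'
  have h2 := hom_fr k n j K' ψ' hψ' F d hF'
  rw [funext h, ← h2] at h1
  exact h1

/-- the factorization through the chart -/
theorem exists_psi (P : Spec (CommRingCat.of K') ⟶ Proj (homogeneousSubmodule (Fin (n + 1)) k))
    (h : ⊤ ≤ P ⁻¹ᵁ Proj.basicOpen (homogeneousSubmodule (Fin (n + 1)) k) (X j)) :
    ∃ φ : CommRingCat.of (Away (H38.gr k n) (X j : MvPolynomial (Fin (n + 1)) k)) ⟶
      CommRingCat.of K',
      Spec.map φ ≫ Proj.awayι (H38.gr k n) (X j) (H38.X_mem k n j) one_pos = P ∧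
      (∀ l, pcoordE k n j P h l = φ.hom (H38.frX k n j l)) ∧
      (P ≫ projStr k n = Spec.map (CommRingCat.ofHom (algebraMap k K')) →
        ∀ a, φ.hom (H38.cst k n j a) = algebraMap k K' a) := by
  obtain ⟨g, hg⟩ := H38.factor (H38.gr k n) (X j) (H38.X_mem k n j) one_pos P h
  refine ⟨Spec.preimage g, ?_, ?_, ?_⟩
  · rw [Spec.map_preimage, hg]
  · intro l
    obtain ⟨φ, rfl⟩ : ∃ φ, g = Spec.map φ := ⟨Spec.preimage g, (Spec.map_preimage g).symm⟩
    subst hg
    rw [Spec.preimage_map]
    exact H38.kval_awayToSection (H38.gr k n) (X j) (H38.X_mem k n j) one_pos φ h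
      (H38.frX k n j l)
  · intro hP a
    obtain ⟨φ, rfl⟩ : ∃ φ, g = Spec.map φ := ⟨Spec.preimage g, (Spec.map_preimage g).symm⟩
    subst hg
    rw [Spec.preimage_map]
    have h1 : Spec.map (CommRingCat.ofHom (algebraMap k (homogeneousSubmodule (Fin (n + 1)) k 0)) ≫
        CommRingCat.ofHom (fromZeroRingHom (H38.gr k n) (Submonoid.powers (X j :
          MvPolynomial (Fin (n + 1)) k))) ≫ φ) =
        Spec.map (CommRingCat.ofHom (algebraMap k K')) := by
      rw [Spec.map_comp, Spec.map_comp, ← hP]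
      rw [← Proj.awayι_toSpecZero (H38.gr k n) (X j) (H38.X_mem k n j) one_pos]
      simp only [Category.assoc]
    have h2 := Spec.map_injective h1
    exact congrArg (fun g => g.hom a) h2

theorem projFactsE : ProjFactsE k n K' where
  one := by
    intro j P h
    obtain ⟨φ, -, h1, -⟩ := exists_psi k n j K' P h
    rw [h1, H38.frX_self, map_one]
  zero := by
    intro j P h hP d F hF hF0
    obtain ⟨φ, h1, h2, h3⟩ := exists_psi k n j K' P h
    have hFX : (F * X j).IsHomogeneous (d + 1) := hF.mul (isHomogeneous_X k j)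
    have h4 := hom_fr k n j K' φ.hom (h3 hP) (F * X j) (d + 1) hFX
    have h5 : φ.hom (H38.fr k n j (F * X j) (d + 1) hFX) = 0 := by
      by_contra hne
      let a : Spec (CommRingCat.of K') := (⟨⊥, Ideal.isPrime_bot⟩ : PrimeSpectrum K')
      have hmem : F * X j ∈ H38.gr k n (d + 1) := (mem_homogeneousSubmodule _ _).mpr hFX
      have h6 := Proj.awayι_preimage_basicOpen (H38.gr k n) (H38.X_mem k n j) one_pos hmem
        (Nat.succ_pos d)
      have h7 : PrimeSpectrum.comap φ.hom (⟨⊥, Ideal.isPrime_bot⟩ : PrimeSpectrum K') ∈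
          PrimeSpectrum.basicOpen (Away.isLocalizationElem (H38.X_mem k n j) hmem) := by
        have h8 : Away.isLocalizationElem (H38.X_mem k n j) hmem =
            H38.fr k n j (F * X j) (d + 1) hFX := by
          unfold H38.fr
          simp only [Away.isLocalizationElem, pow_one]
        rw [h8, PrimeSpectrum.mem_basicOpen]
        intro h9
        apply hne
        exact (Ideal.mem_bot.mp h9 :)
      have h8 : Spec.map φ a ∈ Proj.awayι (H38.gr k n) (X j) (H38.X_mem k n j) one_pos ⁻¹ᵁ
          Proj.basicOpen (H38.gr k n) (F * X j) := by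
        rw [h6]
        exact h7
      have h9 : P a ∈ Proj.basicOpen (H38.gr k n) (F * X j) := by
        rw [← h1]
        exact h8
      rw [Proj.mem_basicOpen] at h9
      exact h9 (Ideal.mul_mem_right _ _ (hF0 a))
    rw [h5] at h4
    have h6 : pcoordE k n j P h = fun l => φ.hom (H38.frX k n j l) := funext h2
    rw [h6]
    rw [map_mul, aeval_X, H38.frX_self, map_one, mul_one] at h4
    exact h4.symm
  inj := by
    intro j P Q hP hQ h1 h2 h3
    obtain ⟨φ, a1, a2, a3⟩ := exists_psi k n j K' P hP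
    obtain ⟨φ', b1, b2, b3⟩ := exists_psi k n j K' Q hQ
    have h4 : φ.hom = φ'.hom := hom_ext k n j K' φ.hom φ'.hom (a3 h1) (b3 h2) (fun l => by
      rw [← a2, ← b2, h3])
    have h5 : φ = φ' := CommRingCat.hom_ext h4
    rw [← a1, ← b1, h5]

end

/-- Module GPROJ. -/
theorem gproj : GprojStatement := fun k _ n _ K' _ _ => projFactsE k n K'

end Pool.Agent.Gen.H70
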